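import Pool.Agent.Work.MP_9fc12a_nt.Bound

/-!
All complex roots of the binary Hankel determinant polynomials have modulus
`< (3 + √5) / 2`, and this constant is optimal.
-/

open Polynomial

namespace Pool.Agent.Results.MP_9fc12a_nt.OptimalBound

/-- `S(n,t) = ∑ ε_j t ^ j`, where `n = ∑ ε_j 2 ^ j` is the binary expansion of `n`. -/
noncomputable def S (n : ℕ) : ℤ[X] := Nat.ofDigits (X : ℤ[X]) (Nat.digits 2 n)

/-- The Hankel determinant `det [S(i+j,t)]_{0 ≤ i,j < n}`. -/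
noncomputable def H (n : ℕ) : ℤ[X] :=
  (Matrix.of fun i j : Fin n => S ((i : ℕ) + (j : ℕ))).det

/-- `a_0 = 5`, `a_{k+1} = 2 a_k` for `k ≡ 0, 1 (mod 4)`, `a_{k+1} = 2 a_k - 1` otherwise. -/
def a : ℕ → ℕ
  | 0 => 5
  | k + 1 => if k % 4 ≤ 1 then 2 * a k else 2 * a k - 1

open Pool.Agent.Work.MP_9fc12a_nt

lemma aeval_S {K : Type*} [Field K] (t : K) (n : ℕ) : aeval t (S n) = sv t n := by
  unfold S sv
  induction Nat.digits 2 n with
  | nil => simp [Nat.ofDigits]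
  | cons d l ih => simp [Nat.ofDigits, ih]

lemma aeval_H {K : Type*} [Field K] (t : K) (n : ℕ) : aeval t (H n) = (hk t n).det := by
  unfold H hk
  rw [AlgHom.map_det]
  congr 1
  ext i j
  simp [aeval_S]

theorem result :
    (∀ n : ℕ, 2 ≤ n → ∀ t : ℂ, aeval t (H n) = 0 → ‖t‖ < (3 + √5) / 2) ∧
    (∀ ε : ℝ, 0 < ε → ∃ K : ℕ, ∀ k : ℕ, K ≤ k → ∃ t : ℝ, aeval t (H (a k)) = 0 ∧
      -((3 + √5) / 2) < t ∧ t < -((3 + √5) / 2) + ε) := by
  obtain ⟨M, hM, -, hMl, -⟩ := M_facts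
  constructor
  · intro n hn t h
    by_contra hlt
    rw [not_lt] at hlt
    have hT : 2 < ‖t‖ := by linarith
    have ht0 : t ≠ 0 := norm_pos_iff.1 (by linarith)
    rw [aeval_H, det_eq_zero_iff t ht0 (pow_ne_of_norm (by simp) hT) (by omega)] at h
    exact rv_ne_zero hlt hn h
  · intro ε hε
    obtain ⟨K, hK⟩ := Filter.eventually_atTop.1 (exists_root a rfl (fun _ => rfl) hε)
    refine ⟨K, fun k hk => ?_⟩
    obtain ⟨t, ht, hr, h1, h2⟩ := hK k hk
    refine ⟨t, ?_, h1, h2⟩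
    have hT : 2 < ‖t‖ := by
      rw [Real.norm_eq_abs, abs_of_neg (by linarith)]; linarith
    have ha : 1 ≤ a k := le_trans (by norm_num) (seq_inv a rfl (fun _ => rfl) k).1
    rw [aeval_H, det_eq_zero_iff t (by linarith) (pow_ne_of_norm (by simp) hT) ha]
    exact hr

end Pool.Agent.Results.MP_9fc12a_nt.OptimalBound
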